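import Mathlib
import Pool.Agent.H.MP_28a92f_nt.Main

namespace Pool.Agent.Results.MP_28a92f_nt.Disproof

open Pool.Agent.H.MP_28a92f_nt

lemma conj (k : ℕ) (y : ZMod 3212647) :
    (fun x : ZMod 3212647 => x ^ 2 + 803162)^[k] (y + 1606324) = f^[k] y + 1606324 := by
  induction k with
  | zero => rfl
  | succ k ih =>
    rw [Function.iterate_succ_apply', Function.iterate_succ_apply', ih, f]
    have z : (3212647 : ZMod 3212647) = 0 := by exact_mod_cast ZMod.natCast_self 3212647
    linear_combination (f^[k] y + 803162) * z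

lemma toFix (x : ZMod 3212647) :
    ∃ k, (fun x : ZMod 3212647 => x ^ 2 + 803162)^[k] x = 1606324 := by
  obtain ⟨k, hk⟩ := all_reach (x - 1606324)
  refine ⟨k, ?_⟩
  have := conj k (x - 1606324)
  rwa [sub_add_cancel, hk, zero_add] at this

lemma isFix : (1606324 : ZMod 3212647) ^ 2 + 803162 = 1606324 := by
  have := conj 1 0
  simpa [f] using this

theorem result : ∃ p : ℕ, p.Prime ∧ 7 < p ∧ ∃ a : ZMod p,
    (SimpleGraph.fromRel fun x y : ZMod p => y = x ^ 2 + a).Connected ∧
    ∃ x₀ : ZMod p, x₀ ^ 2 + a = x₀ ∧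
      ∀ x ∈ Function.periodicPts (fun x : ZMod p => x ^ 2 + a), x = x₀ := by
  refine ⟨3212647, by norm_num, by norm_num, 803162, ?_, 1606324, isFix, ?_⟩
  · have key : ∀ k (x : ZMod 3212647),
        (SimpleGraph.fromRel fun x y : ZMod 3212647 => y = x ^ 2 + 803162).Reachable x
          ((fun x : ZMod 3212647 => x ^ 2 + 803162)^[k] x) := by
      intro k
      induction k with
      | zero => intro x; exact SimpleGraph.Reachable.refl _
      | succ k ih =>
        intro x
        rw [Function.iterate_succ_apply]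
        refine SimpleGraph.Reachable.trans ?_ (ih _)
        by_cases h : x = x ^ 2 + 803162
        · rw [← h]
        · exact SimpleGraph.Adj.reachable ((SimpleGraph.fromRel_adj _ _ _).2 ⟨h, Or.inl rfl⟩)
    refine ⟨fun x y => ?_⟩
    obtain ⟨k, hk⟩ := toFix x
    obtain ⟨l, hl⟩ := toFix y
    have h1 := key k x
    have h2 := key l y
    rw [hk] at h1; rw [hl] at h2
    exact h1.trans h2.symm
  · rintro x ⟨n, hn, hx⟩
    obtain ⟨k, hk⟩ := toFix x
    have h1 := hx.mul_const k
    rw [Function.IsPeriodicPt, Function.IsFixedPt,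
      show n * k = (n - 1) * k + k by
        obtain ⟨m, rfl⟩ : ∃ m, n = m + 1 := ⟨n - 1, by omega⟩
        simp [add_mul],
      Function.iterate_add_apply, hk, Function.iterate_fixed isFix] at h1
    exact h1.symm

end Pool.Agent.Results.MP_28a92f_nt.Disproof
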